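import Pool.Agent.Y797.Q2.Gen2

/-!
# The unramified Pfister map in degree two need not be injective nor surjective

Question 2 of MP_a9963e_ag has a negative answer, with `n = 2`, on a smooth affine curve over `ℚ`
on which the containment of Question 1 holds in degree two.
-/

set_option autoImplicit false

noncomputable section

namespace Pool.Agent.Results.MP_a9963e_ag.ConicDegreeTwo

open AlgebraicGeometry Pool.Agent.TH132.W Pool.Agent.Y797.Q2

/-- There is a smooth affine integral scheme `X` over `ℚ` such that, in degree two, the image of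
`K²_{M,ur}(X) / 2` is contained in `I²_ur(X) / I³_ur(X)` and the induced map is neither injective
nor surjective, and such that, in degree one, the induced map
`K¹_{M,ur}(X) / 2 → I_ur(X) / I²_ur(X)` is not surjective. Similarly over every field `k` of
characteristic different from two with a nonsquare `c`: the containments and the failure of
surjectivity in degree one hold without further conditions, injectivity in degree two fails if `-1`
is of the form `e₀² - c e₁²`, and surjectivity in degree two fails if there is a nonzero `a` such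
that neither `a` nor `-a` is of this form. -/
theorem result :
    (∃ (X : Scheme.{0}) (_ : IsIntegral X) (_ : IsAffine X)
      (f : X ⟶ Spec (CommRingCat.of ℚ)),
      Smooth f ∧ ContainedTwo X ∧ NotInjectiveTwo X ∧ NotSurjectiveTwo X ∧
        ContainedOne X ∧ NotSurjectiveOne X) ∧
    (∀ (k : Type) [Field k] (c : k), (2 : k) ≠ 0 → (∀ s : k, s ^ 2 ≠ c) →
      ∃ (X : Scheme.{0}) (_ : IsIntegral X) (_ : IsAffine X) (f : X ⟶ Spec (CommRingCat.of k)),
        Smooth f ∧ ContainedTwo X ∧ ContainedOne X ∧ NotSurjectiveOne X ∧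
        ((∃ e0 e1 : k, e0 ^ 2 - c * e1 ^ 2 = -1) → NotInjectiveTwo X) ∧
        ((∃ a : k, a ≠ 0 ∧ ∀ e0 e1 : k, e0 ^ 2 - c * e1 ^ 2 ≠ a ∧ e0 ^ 2 - c * e1 ^ 2 ≠ -a) →
          NotSurjectiveTwo X)) := by
  refine ⟨?_, fun k _ c h2 hc => general2 k c h2 hc⟩
  obtain ⟨X, hX, hX', f, h3, h4, h5, h6, h7, h8⟩ :=
    general2 ℚ 2 two_ne_zero stArithQ.1
  exact ⟨X, hX, hX', f, h3, h4, h7 ⟨1, 1, by norm_num⟩, h8 ⟨3, by norm_num, stArithQ.2⟩, h5, h6⟩

end Pool.Agent.Results.MP_a9963e_ag.ConicDegreeTwo
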